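import Mathlib

set_option autoImplicit false

open MeasureTheory Set

namespace Pool.Agent.Results.MP_4d4a97_an.MazurUlamNegative

/-- The open interval `(a, b)` of the real line, with extended real end points. -/
def oInt (a b : EReal) : Set ℝ := {x : ℝ | a < (x : EReal) ∧ (x : EReal) < b}

/-- The value at `x` of a real function `g` defined on a subset of the line
(and `0` where `g` is not defined). -/
noncomputable def val (g : ℝ →. ℝ) (x : ℝ) : ℝ :=
  open scoped Classical in if h : (g x).Dom then (g x).get h else 0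

/-- The rational combination `x ↦ P(g₁(x), …, g_m(x)) / Q(g₁(x), …, g_m(x))`, defined at those
`x ∈ I` where all `g_j` are defined and `Q(g₁(x), …, g_m(x)) ≠ 0`. -/
noncomputable def ratComb (I : Set ℝ) {m : ℕ} (P Q : MvPolynomial (Fin m) ℝ)
    (g : Fin m → ℝ →. ℝ) : ℝ →. ℝ :=
  fun x => ⟨x ∈ I ∧ (∀ j, (g j x).Dom) ∧ MvPolynomial.eval (fun j => val (g j) x) Q ≠ 0,
    fun _ => MvPolynomial.eval (fun j => val (g j) x) P /
      MvPolynomial.eval (fun j => val (g j) x) Q⟩

/-- The class `R(f₁, …, f_n)`: the smallest set of real functions, each defined on a subset of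
`I`, that contains (the restrictions to `I` of) `f₁, …, f_n` and is closed under rational
combinations and under composition. -/
def genClass (I : Set ℝ) {n : ℕ} (f : Fin n → ℝ → ℝ) : Set (ℝ →. ℝ) :=
  ⋂₀ {S | (∀ i, PFun.res (f i) I ∈ S) ∧
    (∀ (m : ℕ) (P Q : MvPolynomial (Fin m) ℝ) (g : Fin m → ℝ →. ℝ),
      (∀ j, g j ∈ S) → ratComb I P Q g ∈ S) ∧
    (∀ h k : ℝ →. ℝ, h ∈ S → k ∈ S → h.comp k ∈ S)}

/-! ### Coding into a null set -/

/-- Interleaving of two binary sequences. -/
def inter (s t : ℕ → Bool) : ℕ → Bool := fun n => if n % 2 = 0 then s (n / 2) else t (n / 2)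

lemma inter_even (s t : ℕ → Bool) (k : ℕ) : inter s t (2 * k) = s k := by
  simp [inter]

lemma inter_odd (s t : ℕ → Bool) (k : ℕ) : inter s t (2 * k + 1) = t k := by
  have h1 : (2 * k + 1) % 2 = 1 := by omega
  have h2 : (2 * k + 1) / 2 = k := by omega
  simp [inter, h1, h2]

lemma inter_injective {s t s' t' : ℕ → Bool} (h : inter s t = inter s' t') : s = s' ∧ t = t' := by
  constructor
  · funext k
    have := congrFun h (2 * k)
    rwa [inter_even, inter_even] at this
  · funext k
    have := congrFun h (2 * k + 1)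
    rwa [inter_odd, inter_odd] at this

/-- The coding map on pairs. -/
noncomputable def V (s t : ℕ → Bool) : ℝ :=
  Cardinal.cantorFunction (1 / 9) s + (1 / 3) * Cardinal.cantorFunction (1 / 9) t

lemma V_eq (s t : ℕ → Bool) : V s t = Cardinal.cantorFunction (1 / 3) (inter s t) := by
  have hs : ∀ k, Cardinal.cantorFunctionAux (1 / 3) (inter s t) (2 * k)
      = Cardinal.cantorFunctionAux (1 / 9) s k := by
    intro k
    simp only [Cardinal.cantorFunctionAux, inter_even]
    rw [pow_mul]; norm_num
  have ht : ∀ k, Cardinal.cantorFunctionAux (1 / 3) (inter s t) (2 * k + 1)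
      = (1 / 3) * Cardinal.cantorFunctionAux (1 / 9) t k := by
    intro k
    simp only [Cardinal.cantorFunctionAux, inter_odd]
    rw [pow_succ, pow_mul]
    cases t k <;> norm_num
    ring
  have hS : Summable (Cardinal.cantorFunctionAux (1 / 9) s) :=
    Cardinal.summable_cantor_function s (by norm_num) (by norm_num)
  have hT : Summable (Cardinal.cantorFunctionAux (1 / 9) t) :=
    Cardinal.summable_cantor_function t (by norm_num) (by norm_num)
  unfold V Cardinal.cantorFunction
  rw [← tsum_even_add_odd (f := Cardinal.cantorFunctionAux (1 / 3) (inter s t))]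
  · simp_rw [hs, ht]
    rw [tsum_mul_left]
  · simp_rw [hs]; exact hS
  · simp_rw [ht]; exact hT.mul_left _

lemma V_injective {s t s' t' : ℕ → Bool} (h : V s t = V s' t') : s = s' ∧ t = t' := by
  rw [V_eq, V_eq] at h
  exact inter_injective (Cardinal.cantorFunction_injective (by norm_num) (by norm_num) h)

lemma cantor_nonneg {c : ℝ} (h0 : 0 ≤ c) (s : ℕ → Bool) : 0 ≤ Cardinal.cantorFunction c s :=
  tsum_nonneg fun _ => Cardinal.cantorFunctionAux_nonneg h0

lemma cantor_le {c : ℝ} (h0 : 0 ≤ c) (h1 : c < 1) (s : ℕ → Bool) :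
    Cardinal.cantorFunction c s ≤ (1 - c)⁻¹ := by
  rw [← tsum_geometric_of_lt_one h0 h1]
  refine (Cardinal.summable_cantor_function s h0 h1).tsum_le_tsum ?_
    (summable_geometric_of_lt_one h0 h1)
  intro n
  unfold Cardinal.cantorFunctionAux
  cases s n
  · simpa using pow_nonneg h0 n
  · simp

lemma V_nonneg (s t : ℕ → Bool) : 0 ≤ V s t := by
  have := cantor_nonneg (c := 1 / 9) (by norm_num) s
  have := cantor_nonneg (c := 1 / 9) (by norm_num) t
  unfold V; positivity

lemma V_le (s t : ℕ → Bool) : V s t ≤ 3 / 2 := by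
  rw [V_eq]
  refine (cantor_le (by norm_num) (by norm_num) _).trans ?_
  norm_num

/-- The set of all codes is a null set. -/
lemma volume_range_cantor : volume (range (Cardinal.cantorFunction (1 / 3))) = 0 := by
  set W := range (Cardinal.cantorFunction (1 / 3)) with hW
  have hb : W ⊆ Icc 0 (3 / 2) := by
    rintro _ ⟨s, rfl⟩
    refine ⟨cantor_nonneg (by norm_num) s, (cantor_le (by norm_num) (by norm_num) s).trans ?_⟩
    norm_num
  have hfin : volume W ≠ ⊤ := by
    refine ne_top_of_le_ne_top ?_ (measure_mono hb)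
    simp
  have hsub : W ⊆ (fun x => (1 / 3 : ℝ) * x) '' W ∪ (fun x => 1 + (1 / 3 : ℝ) * x) '' W := by
    rintro _ ⟨s, rfl⟩
    rw [Cardinal.cantorFunction_succ s (by norm_num) (by norm_num)]
    cases h : s 0
    · left
      exact ⟨_, ⟨fun n => s (n + 1), rfl⟩, by simp⟩
    · right
      exact ⟨_, ⟨fun n => s (n + 1), rfl⟩, by simp⟩
  have h1 : volume ((fun x => (1 / 3 : ℝ) * x) '' W) = ENNReal.ofReal (1 / 3) * volume W := by
    have := Measure.addHaar_image_homothety (volume : Measure ℝ) (0 : ℝ) (1 / 3 : ℝ) W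
    simpa [AffineMap.homothety_apply, abs_of_pos] using this
  have h2 : volume ((fun x => 1 + (1 / 3 : ℝ) * x) '' W) = ENNReal.ofReal (1 / 3) * volume W := by
    rw [← h1]
    have : (fun x => 1 + (1 / 3 : ℝ) * x) '' W = (fun y => 1 + y) '' ((fun x => (1 / 3 : ℝ) * x) '' W) := by
      rw [image_image]
    rw [this, image_add_left, measure_preimage_add]
  have h3 : volume W ≤ ENNReal.ofReal (2 / 3) * volume W := by
    calc volume W ≤ _ := measure_mono hsub
      _ ≤ _ := measure_union_le _ _
      _ = ENNReal.ofReal (1 / 3) * volume W + ENNReal.ofReal (1 / 3) * volume W := by rw [h1, h2]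
      _ = ENNReal.ofReal (2 / 3) * volume W := by
        rw [← add_mul, ← ENNReal.ofReal_add (by norm_num) (by norm_num)]
        norm_num
  by_contra hne
  have hpos : 0 < volume W := pos_iff_ne_zero.mpr hne
  have : ENNReal.ofReal (2 / 3) * volume W < 1 * volume W := by
    refine ENNReal.mul_lt_mul_left hne hfin ?_
    rw [← ENNReal.ofReal_one]
    exact (ENNReal.ofReal_lt_ofReal_iff (by norm_num)).mpr (by norm_num)
  rw [one_mul] at this
  exact absurd h3 (not_le.mpr this)


/-- Continuous functions can be coded injectively by binary sequences. -/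
lemma exists_code_continuous : ∃ e : C(ℝ, ℝ) → (ℕ → Bool), Function.Injective e := by
  have h1 : Cardinal.mk C(ℝ, ℝ) ≤ Cardinal.mk (ℚ → ℝ) := by
    refine Cardinal.mk_le_of_injective (f := fun F q => F (q : ℝ)) ?_
    intro F G h
    refine ContinuousMap.ext fun x => ?_
    have := DenseRange.equalizer (f := ((↑) : ℚ → ℝ)) Rat.denseRange_cast F.continuous G.continuous h
    exact congrFun this x
  have h2 : Cardinal.mk (ℚ → ℝ) = Cardinal.mk (ℕ → Bool) := by
    simp only [Cardinal.mk_pi, Cardinal.prod_const, Cardinal.mk_real, Cardinal.lift_id,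
      Cardinal.mk_bool, Cardinal.mk_nat, Cardinal.mkRat, Cardinal.continuum_power_aleph0,
      Cardinal.two_power_aleph0]
  rw [h2] at h1
  obtain ⟨e⟩ := Cardinal.le_def _ _ |>.mp h1
  exact ⟨e, e.injective⟩

/-- Real numbers can be coded injectively and measurably by binary sequences. -/
lemma exists_code_real : ∃ d : ℝ → (ℕ → Bool), Function.Injective d ∧ Measurable d := by
  have h : ¬ Countable ℝ := by
    intro hc
    exact Cardinal.not_countable_real (Set.countable_univ_iff.mpr hc)
  let e := PolishSpace.measurableEquivNatBoolOfNotCountable h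
  exact ⟨e, e.injective, e.measurable⟩

lemma measurable_cantor {c : ℝ} (h0 : 0 ≤ c) (h1 : c < 1) :
    Measurable (Cardinal.cantorFunction c) := by
  have hc : Continuous (Cardinal.cantorFunction c) := by
    refine continuous_tsum (u := fun n => c ^ n) ?_ (summable_geometric_of_lt_one h0 h1) ?_
    · intro n
      have : (fun f : ℕ → Bool => Cardinal.cantorFunctionAux c f n)
          = (fun b : Bool => cond b (c ^ n) 0) ∘ (fun f : ℕ → Bool => f n) := rfl
      rw [this]
      exact continuous_of_discreteTopology.comp (continuous_apply n)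
    · intro n f
      unfold Cardinal.cantorFunctionAux
      cases f n
      · simpa using pow_nonneg h0 n
      · simp [abs_of_nonneg h0]
  exact hc.measurable

lemma exists_real_between {a b : EReal} (hab : a < b) :
    ∃ l κ : ℝ, 0 < κ ∧ ∀ v : ℝ, 0 ≤ v → v ≤ 3 / 2 → l + κ * v ∈ oInt a b := by
  obtain ⟨l, hal, hlb⟩ := EReal.lt_iff_exists_real_btwn.mp hab
  obtain ⟨r, hlr, hrb⟩ := EReal.lt_iff_exists_real_btwn.mp hlb
  have hlr' : l < r := EReal.coe_lt_coe_iff.mp hlr
  refine ⟨l, (r - l) / 2, by linarith, fun v hv0 hv1 => ⟨?_, ?_⟩⟩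
  · refine hal.trans_le (EReal.coe_le_coe_iff.mpr ?_)
    have : 0 ≤ (r - l) / 2 * v := by
      apply mul_nonneg _ hv0
      linarith
    linarith
  · refine lt_of_le_of_lt (EReal.coe_le_coe_iff.mpr ?_) hrb
    have : (r - l) / 2 * v ≤ (r - l) / 2 * (3 / 2) := by
      apply mul_le_mul_of_nonneg_left hv1
      linarith
    linarith


lemma val_res {f : ℝ → ℝ} {I : Set ℝ} {x : ℝ} (hx : x ∈ I) : val (PFun.res f I) x = f x := by
  have h : (PFun.res f I x).Dom := hx
  unfold val
  rw [dif_pos h]
  rfl

/-- Three functions such that the generated class contains every continuous function. -/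
lemma exists_three (a b : EReal) (hab : a < b) :
    ∃ f : Fin 3 → ℝ → ℝ, (∀ i, IntegrableOn (f i) (oInt a b)) ∧
      ∀ F : C(ℝ, ℝ), ∃ h ∈ genClass (oInt a b) f,
        ∀ x ∈ oInt a b, x ∈ h.Dom ∧ val h x = F x := by
  classical
  obtain ⟨e, he⟩ := exists_code_continuous
  obtain ⟨d, hd, hdm⟩ := exists_code_real
  obtain ⟨l, κ, hκ, hI⟩ := exists_real_between hab
  -- the code of a pair
  set code : C(ℝ, ℝ) × ℝ → ℝ := fun p => l + κ * V (e p.1) (d p.2) with hcode
  have hcode_inj : Function.Injective code := by
    rintro ⟨F, x⟩ ⟨G, y⟩ h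
    have h1 : V (e F) (d x) = V (e G) (d y) := by
      have : κ * V (e F) (d x) = κ * V (e G) (d y) := by
        simpa [hcode] using h
      exact mul_left_cancel₀ hκ.ne' this
    obtain ⟨h2, h3⟩ := V_injective h1
    rw [he h2, hd h3]
  -- the decoding function
  set dec : ℝ → ℝ := Function.extend code (fun p => p.1 p.2) (fun _ => 0) with hdec
  have hdec_code : ∀ (F : C(ℝ, ℝ)) (x : ℝ), dec (code (F, x)) = F x := by
    intro F x
    exact hcode_inj.extend_apply (fun p : C(ℝ, ℝ) × ℝ => p.1 p.2) (fun _ => 0) (F, x)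
  -- the digit spreading function
  set β : ℝ → ℝ := fun x => Cardinal.cantorFunction (1 / 9) (d x) with hβ
  have hβm : Measurable β := (measurable_cantor (by norm_num) (by norm_num)).comp hdm
  have hβ0 : ∀ x, 0 ≤ β x := fun x => cantor_nonneg (by norm_num) _
  have hβ1 : ∀ x, β x ≤ 9 / 8 := fun x =>
    (cantor_le (by norm_num) (by norm_num) _).trans (by norm_num)
  set w : ℝ → ℝ := fun x => (1 + x ^ 2)⁻¹ with hw
  have hwpos : ∀ x, 0 < w x := fun x => by positivity
  have hwint : Integrable w := integrable_inv_one_add_sq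
  have hdec_ae : dec =ᵐ[volume] fun _ => (0 : ℝ) := by
    have hsub : {x | ¬ dec x = 0} ⊆ (fun y => l + κ * y) '' range (Cardinal.cantorFunction (1 / 3)) := by
      intro x hx
      by_cases hex : ∃ p, code p = x
      · obtain ⟨p, hp⟩ := hex
        refine ⟨V (e p.1) (d p.2), ⟨inter (e p.1) (d p.2), (V_eq _ _).symm⟩, hp⟩
      · exact absurd (Function.extend_apply' _ _ _ hex) hx
    have hnull : volume ((fun y => l + κ * y) '' range (Cardinal.cantorFunction (1 / 3))) = 0 := by
      have h1 : (fun y => l + κ * y) '' range (Cardinal.cantorFunction (1 / 3))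
          = (fun y => l + y) '' ((fun y => κ * y) '' range (Cardinal.cantorFunction (1 / 3))) := by
        rw [image_image]
      rw [h1, image_add_left, measure_preimage_add]
      have h2 : (fun y => κ * y) '' range (Cardinal.cantorFunction (1 / 3))
          = AffineMap.homothety (0 : ℝ) κ '' range (Cardinal.cantorFunction (1 / 3)) := by
        refine image_congr fun y _ => ?_
        simp [AffineMap.homothety_apply]
      rw [h2, Measure.addHaar_image_homothety, volume_range_cantor, mul_zero]
    exact measure_mono_null hsub hnull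
  refine ⟨![w, fun x => w x * β x, dec], ?_, ?_⟩
  · intro i
    fin_cases i
    · exact hwint.integrableOn
    · have : Integrable (fun x => w x * β x) := by
        refine hwint.mul_bdd (c := 9 / 8) hβm.aestronglyMeasurable ?_
        refine Filter.Eventually.of_forall fun x => ?_
        rw [Real.norm_eq_abs, abs_of_nonneg (hβ0 x)]
        exact hβ1 x
      exact this.integrableOn
    · have : Integrable dec := (integrable_zero ℝ ℝ volume).congr hdec_ae.symm
      exact this.integrableOn
  · intro F
    set f : Fin 3 → ℝ → ℝ := ![w, fun x => w x * β x, dec] with hf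
    set I := oInt a b with hIdef
    -- numerator and denominator
    set c₀ : ℝ := l + κ * Cardinal.cantorFunction (1 / 9) (e F) with hc₀
    obtain ⟨P, hP⟩ : ∃ P : MvPolynomial (Fin 2) ℝ, P =
      MvPolynomial.C c₀ * MvPolynomial.X 0 + MvPolynomial.C (κ / 3) * MvPolynomial.X 1 := ⟨_, rfl⟩
    obtain ⟨Q, hQ⟩ : ∃ Q : MvPolynomial (Fin 2) ℝ, Q = MvPolynomial.X 0 := ⟨_, rfl⟩
    set g : Fin 2 → ℝ →. ℝ := ![PFun.res (f 0) I, PFun.res (f 1) I] with hg
    refine ⟨(PFun.res (f 2) I).comp (ratComb I P Q g), ?_, ?_⟩
    · intro S hS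
      obtain ⟨hS1, hS2, hS3⟩ := hS
      refine hS3 _ _ (hS1 2) (hS2 2 P Q g ?_)
      intro j
      fin_cases j
      · exact hS1 0
      · exact hS1 1
    · intro x hx
      have hg0 : val (g 0) x = w x := val_res hx
      have hg1 : val (g 1) x = w x * β x := val_res hx
      have hQx : MvPolynomial.eval (fun j => val (g j) x) Q = w x := by
        simp [hQ, hg0]
      have hPx : MvPolynomial.eval (fun j => val (g j) x) P = c₀ * w x + κ / 3 * (w x * β x) := by
        simp [hP, hg0, hg1]
      have hdom : (ratComb I P Q g x).Dom := by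
        refine ⟨hx, ?_, ?_⟩
        · intro j
          fin_cases j
          · exact hx
          · exact hx
        · rw [hQx]; exact (hwpos x).ne'
      have hget : (ratComb I P Q g x).get hdom = code (F, x) := by
        change MvPolynomial.eval (fun j => val (g j) x) P /
          MvPolynomial.eval (fun j => val (g j) x) Q = _
        rw [hPx, hQx, hcode]
        have := (hwpos x).ne'
        simp only [V]
        field_simp
        ring
      have hmem : code (F, x) ∈ I := by
        exact hI _ (V_nonneg _ _) (V_le _ _)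
      have hsome : ratComb I P Q g x = Part.some (code (F, x)) := by
        rw [← hget]; exact (Part.some_get hdom).symm
      have hcomp : F x ∈ (PFun.res (f 2) I).comp (ratComb I P Q g) x := by
        change F x ∈ (ratComb I P Q g x).bind (PFun.res (f 2) I)
        refine Part.mem_bind (a := code (F, x)) ?_ ((PFun.mem_res _ _ _ _).mpr ?_)
        · rw [hsome]; exact Part.mem_some _
        · exact ⟨hmem, hdec_code F x⟩
      have hd' : ((PFun.res (f 2) I).comp (ratComb I P Q g) x).Dom :=
        Part.dom_iff_mem.mpr ⟨_, hcomp⟩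
      refine ⟨hd', ?_⟩
      unfold val
      rw [dif_pos hd']
      exact Part.get_eq_of_mem hcomp hd'

/-- **Negative answer to the Mazur-Ulam question.** For every interval `(a, b)`, there are three
finite summable functions `f₁, f₂, f₃` on `(a, b)` such that the class `R(f₁, f₂, f₃)` generated
by rational combinations and composition is closed under indefinite integration. -/
theorem result (a b : EReal) (hab : a < b) :
    ∃ f : Fin 3 → ℝ → ℝ, (∀ i, IntegrableOn (f i) (oInt a b)) ∧
      ∀ g ∈ genClass (oInt a b) f, ∀ α β : EReal, a ≤ α → α < β → β ≤ b →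
        (∀ᵐ x ∂(volume.restrict (oInt α β)), x ∈ g.Dom) →
        IntegrableOn (val g) (oInt α β) →
        ∃ h ∈ genClass (oInt a b) f, ∀ x ∈ oInt α β,
          x ∈ h.Dom ∧ val h x = ∫ t in oInt α x, val g t := by
  obtain ⟨f, hf, hF⟩ := exists_three a b hab
  refine ⟨f, hf, ?_⟩
  intro g _ α β hα hαβ hβ _ hint
  -- the primitive, extended to a continuous function on the line
  set φ : ℝ → ℝ := (oInt α β).indicator (val g) with hφ
  have hmeas : MeasurableSet (oInt α β) := by
    have h1 : MeasurableSet {x : ℝ | α < (x : EReal)} :=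
      (isOpen_lt continuous_const continuous_coe_real_ereal).measurableSet
    have h2 : MeasurableSet {x : ℝ | (x : EReal) < β} :=
      (isOpen_lt continuous_coe_real_ereal continuous_const).measurableSet
    exact h1.inter h2
  have hφint : Integrable φ := (integrable_indicator_iff hmeas).mpr hint
  have hcont : Continuous fun x => ∫ t in Iic x, φ t := by
    have h1 : Continuous fun x => ∫ t in (0 : ℝ)..x, φ t :=
      intervalIntegral.continuous_primitive (fun _ _ => hφint.intervalIntegrable) 0
    have h2 : (fun x => ∫ t in Iic x, φ t) = fun x => (∫ t in Iic (0 : ℝ), φ t) + ∫ t in (0 : ℝ)..x, φ t := by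
      funext x
      rw [← intervalIntegral.integral_Iic_sub_Iic hφint.integrableOn hφint.integrableOn]
      ring
    rw [h2]
    exact continuous_const.add h1
  obtain ⟨h, hR, hval⟩ := hF ⟨_, hcont⟩
  refine ⟨h, hR, ?_⟩
  intro x hx
  have hx' : x ∈ oInt a b := ⟨hα.trans_lt hx.1, hx.2.trans_le hβ⟩
  refine ⟨(hval x hx').1, ?_⟩
  rw [(hval x hx').2]
  change ∫ t in Iic x, φ t = _
  rw [integral_Iic_eq_integral_Iio, hφ, setIntegral_indicator hmeas]
  congr 2
  ext t
  simp only [oInt, mem_inter_iff, mem_Iio, mem_ofPred_eq, EReal.coe_lt_coe_iff]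
  constructor
  · rintro ⟨h1, h2, h3⟩
    exact ⟨h2, h1⟩
  · rintro ⟨h1, h2⟩
    exact ⟨h2, h1, (EReal.coe_lt_coe_iff.mpr h2).trans hx.2⟩

end Pool.Agent.Results.MP_4d4a97_an.MazurUlamNegative
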